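import Pool.Agent.W429.TCI.C.Stmts
import Pool.Agent.Helper805.Nuc.NFun
set_option autoImplicit false

/-! Identities lift to the tensor product with the exterior algebra. -/

namespace Pool.Agent.W377.TCI
open Pool.Agent.Helper805.Nuc.Tens Pool.Agent.Helper805.Nuc.NFun
  Pool.Agent.Helper805.Nuc.Ext Pool.Agent.W429.TCI.C Function

/-! ### signs -/

theorem sg2_eq (a b m n : ℕ) (ha : m % 2 = a % 2) (hb : n % 2 = b % 2) :
    sg2 a b = (-1 : ℤ) ^ (m * n) := by
  unfold sg2
  change cond (Nat.beq ((a % 2) * (b % 2)) 1) (Int.negSucc 0) (Int.ofNat 1) = _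
  rcases Nat.mod_two_eq_zero_or_one a with h1 | h1 <;>
    rcases Nat.mod_two_eq_zero_or_one b with h2 | h2 <;> rw [h1, h2]
  · have : Even (m * n) := (Nat.even_iff.2 (by omega)).mul_right _
    rw [this.neg_one_pow]
    rfl
  · have : Even (m * n) := (Nat.even_iff.2 (by omega)).mul_right _
    rw [this.neg_one_pow]
    rfl
  · have : Even (m * n) := (Nat.even_iff.2 (by omega)).mul_left _
    rw [this.neg_one_pow]
    rfl
  · have : Odd (m * n) := (Nat.odd_iff.2 (by omega)).mul (Nat.odd_iff.2 (by omega))
    rw [this.neg_one_pow]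
    rfl

theorem pow_par (a b m n : ℕ) (ha : m % 2 = a % 2) (hb : n % 2 = b % 2) :
    (-1 : ℤ) ^ (a * b) = (-1 : ℤ) ^ (m * n) := by
  rw [← sg2_eq a b m n ha hb, ← sg2_eq a b a b rfl rfl]

theorem sg2_sq (a b : ℕ) : sg2 a b * sg2 a b = 1 := by
  rw [sg2_eq a b a b rfl rfl, ← mul_pow]
  simp

theorem insL_nil (i : ℕ) : insL i [] = [i] := rfl
theorem insL_cons (i j : ℕ) (t : List ℕ) :
    insL i (j :: t) = cond (Nat.blt j i) (j :: insL i t) (i :: j :: t) := rfl
theorem insS_nil (p : ℕ → ℕ) (i : ℕ) : insS p i [] = 1 := rfl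
theorem insS_cons (p : ℕ → ℕ) (i j : ℕ) (t : List ℕ) :
    insS p i (j :: t) = cond (Nat.blt j i) (sg2 (p i) (p j) * insS p i t) 1 := rfl
theorem srt_cons (i : ℕ) (t : List ℕ) : srt (i :: t) = insL i (srt t) := rfl
theorem eps_cons (p : ℕ → ℕ) (i : ℕ) (t : List ℕ) :
    eps p (i :: t) = insS p i (srt t) * eps p t := rfl

theorem insS_sq (p : ℕ → ℕ) (i : ℕ) (t : List ℕ) : insS p i t * insS p i t = 1 := by
  induction t with
  | nil => rfl
  | cons j t ih =>
    rw [insS_cons]
    cases Nat.blt j i with
    | true =>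
      change (sg2 (p i) (p j) * insS p i t) * (sg2 (p i) (p j) * insS p i t) = 1
      rw [mul_mul_mul_comm, sg2_sq, ih, one_mul]
    | false => rfl

theorem eps_sq (p : ℕ → ℕ) (t : List ℕ) : eps p t * eps p t = 1 := by
  induction t with
  | nil => rfl
  | cons j t ih => rw [eps_cons, mul_mul_mul_comm, insS_sq, ih, one_mul]

theorem insL_perm (i : ℕ) (t : List ℕ) : (insL i t).Perm (i :: t) := by
  induction t with
  | nil => exact List.Perm.refl _
  | cons j t ih =>
    rw [insL_cons]
    cases Nat.blt j i with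
    | true => exact (List.Perm.cons j ih).trans (List.Perm.swap i j t)
    | false => exact List.Perm.refl _

theorem srt_perm (t : List ℕ) : (srt t).Perm t := by
  induction t with
  | nil => exact List.Perm.refl _
  | cons j t ih => exact (insL_perm j (srt t)).trans (List.Perm.cons j ih)

/-! ### pure tensors -/

section pure

variable {A : Type} [NonUnitalNonAssocRing A] {n : ℕ}

theorem te_swap3 (a : A) (w x y z : List (Fin n)) :
    te a (w ++ (x ++ (y ++ z))) = ((-1 : ℤ) ^ (x.length * y.length)) • te a (w ++ (y ++ (x ++ z))) := by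
  unfold te
  rw [E_append, E_append, E_append, E_append, E_append, E_append, ← mul_assoc (E ℤ n x),
    E_swap ℤ n x y]
  rcases Nat.even_or_odd (x.length * y.length) with h | h
  · rw [h.neg_one_pow, h.neg_one_pow, one_mul, one_smul, mul_assoc]
  · rw [h.neg_one_pow, h.neg_one_pow, neg_one_mul, neg_mul, mul_neg, tm_negr, mul_assoc,
      neg_smul, one_smul]

variable (p : ℕ → ℕ) (l : ℕ → List (Fin n))

theorem te_ins (a : A) (i : ℕ) (t : List ℕ) (hi : (l i).length % 2 = p i % 2)
    (ht : ∀ j ∈ t, (l j).length % 2 = p j % 2) : ∀ w : List (Fin n),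
    te a (w ++ (l i ++ t.flatMap l)) = insS p i t • te a (w ++ (insL i t).flatMap l) := by
  induction t with
  | nil => intro w; rw [insS_nil, insL_nil, one_smul]; simp
  | cons j t ih =>
    intro w
    rw [insS_cons, insL_cons]
    cases Nat.blt j i with
    | true =>
      change _ = (sg2 (p i) (p j) * insS p i t) • te a (w ++ (j :: insL i t).flatMap l)
      rw [List.flatMap_cons, List.flatMap_cons, te_swap3,
        sg2_eq (p i) (p j) _ _ hi (ht j (List.mem_cons_self)), mul_smul]
      congr 1
      have h1 := ih (fun j' hj' => ht j' (List.mem_cons_of_mem _ hj')) (w ++ l j)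
      rw [List.append_assoc, List.append_assoc] at h1
      exact h1
    | false =>
      change _ = (1 : ℤ) • te a (w ++ (i :: j :: t).flatMap l)
      rw [one_smul, List.flatMap_cons, List.flatMap_cons, List.flatMap_cons]

theorem te_srt (a : A) (t : List ℕ) (ht : ∀ j ∈ t, (l j).length % 2 = p j % 2) :
    ∀ w : List (Fin n),
    te a (w ++ t.flatMap l) = eps p t • te a (w ++ (srt t).flatMap l) := by
  induction t with
  | nil =>
    intro w
    change _ = (1 : ℤ) • _
    rw [one_smul]
    rfl
  | cons i t ih =>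
    intro w
    rw [List.flatMap_cons, ← List.append_assoc,
      ih (fun j' hj' => ht j' (List.mem_cons_of_mem _ hj')) (w ++ l i), List.append_assoc,
      te_ins p l a i (srt t) (ht i (List.mem_cons_self))
        (fun j hj => ht j (List.mem_cons_of_mem _ ((srt_perm t).mem_iff.1 hj))) w,
      smul_smul, eps_cons, srt_cons, mul_comm]

theorem lv_v (i : ℕ) : (Tm.v i).lv = [i] := rfl
theorem lv_mul (s t : Tm) : (Tm.mul s t).lv = s.lv ++ t.lv := rfl
theorem lv_br (s t : Tm) : (Tm.br s t).lv = s.lv ++ t.lv := rfl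
theorem lv_jo (s t : Tm) : (Tm.jo s t).lv = s.lv ++ t.lv := rfl
theorem lv_as (s t r : Tm) : (Tm.as s t r).lv = s.lv ++ (t.lv ++ r.lv) := rfl

theorem len_par (T : Tm) (h : ∀ j ∈ T.lv, (l j).length % 2 = p j % 2) :
    (T.lv.flatMap l).length % 2 = T.dg p % 2 := by
  induction T with
  | v i => 
    have := h i (by simp [lv_v])
    simpa [lv_v, Tm.dg] using this
  | mul s t hs ht =>
    simp only [lv_mul, List.mem_append] at h
    have h1 := hs fun j hj => h j (Or.inl hj)
    have h2 := ht fun j hj => h j (Or.inr hj)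
    rw [lv_mul, List.flatMap_append, List.length_append, Tm.dg]
    omega
  | br s t hs ht =>
    simp only [lv_br, List.mem_append] at h
    have h1 := hs fun j hj => h j (Or.inl hj)
    have h2 := ht fun j hj => h j (Or.inr hj)
    rw [lv_br, List.flatMap_append, List.length_append, Tm.dg]
    omega
  | jo s t hs ht =>
    simp only [lv_jo, List.mem_append] at h
    have h1 := hs fun j hj => h j (Or.inl hj)
    have h2 := ht fun j hj => h j (Or.inr hj)
    rw [lv_jo, List.flatMap_append, List.length_append, Tm.dg]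
    omega
  | as s t r hs ht hr =>
    simp only [lv_as, List.mem_append] at h
    have h1 := hs fun j hj => h j (Or.inl hj)
    have h2 := ht fun j hj => h j (Or.inr (Or.inl hj))
    have h3 := hr fun j hj => h j (Or.inr (Or.inr hj))
    rw [lv_as, List.flatMap_append, List.flatMap_append, List.length_append, List.length_append,
      Tm.dg]
    omega

theorem evS_te (a : ℕ → A) (u : ℕ → TS A n) (T : Tm)
    (h : ∀ j ∈ T.lv, (l j).length % 2 = p j % 2) (hu : ∀ j ∈ T.lv, u j = te (a j) (l j)) :
    T.evS p u = te (T.ev0 a) (T.lv.flatMap l) := by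
  induction T with
  | v i =>
    have := hu i (by simp [lv_v])
    simpa [lv_v, Tm.evS, Tm.ev0] using this
  | mul s t hs ht =>
    simp only [lv_mul, List.mem_append] at h hu
    rw [lv_mul, List.flatMap_append, Tm.evS, Tm.ev0,
      hs (fun j hj => h j (Or.inl hj)) (fun j hj => hu j (Or.inl hj)),
      ht (fun j hj => h j (Or.inr hj)) (fun j hj => hu j (Or.inr hj)), te_mul]
  | br s t hs ht =>
    simp only [lv_br, List.mem_append] at h hu
    rw [lv_br, List.flatMap_append, Tm.evS, Tm.ev0,
      hs (fun j hj => h j (Or.inl hj)) (fun j hj => hu j (Or.inl hj)),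
      ht (fun j hj => h j (Or.inr hj)) (fun j hj => hu j (Or.inr hj)), te_mul, te_mul,
      te_swap (t.ev0 a * s.ev0 a) (s.lv.flatMap l) (t.lv.flatMap l), smul_smul, pow_par (s.dg p) (t.dg p) _ _
        (len_par p l s fun j hj => h j (Or.inl hj)) (len_par p l t fun j hj => h j (Or.inr hj)),
      ← mul_pow]
    simp only [mul_neg, mul_one, neg_neg, one_pow, one_smul]
    rw [te_sub]
    rfl
  | jo s t hs ht =>
    simp only [lv_jo, List.mem_append] at h hu
    rw [lv_jo, List.flatMap_append, Tm.evS, Tm.ev0,
      hs (fun j hj => h j (Or.inl hj)) (fun j hj => hu j (Or.inl hj)),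
      ht (fun j hj => h j (Or.inr hj)) (fun j hj => hu j (Or.inr hj)), te_mul, te_mul,
      te_swap (t.ev0 a * s.ev0 a) (s.lv.flatMap l) (t.lv.flatMap l), smul_smul, pow_par (s.dg p) (t.dg p) _ _
        (len_par p l s fun j hj => h j (Or.inl hj)) (len_par p l t fun j hj => h j (Or.inr hj)),
      ← mul_pow]
    simp only [mul_neg, mul_one, neg_neg, one_pow, one_smul]
    rw [te_add]
    rfl
  | as s t r hs ht hr =>
    simp only [lv_as, List.mem_append] at h hu
    rw [lv_as, List.flatMap_append, List.flatMap_append, Tm.evS, Tm.ev0,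
      hs (fun j hj => h j (Or.inl hj)) (fun j hj => hu j (Or.inl hj)),
      ht (fun j hj => h j (Or.inr (Or.inl hj))) (fun j hj => hu j (Or.inr (Or.inl hj))),
      hr (fun j hj => h j (Or.inr (Or.inr hj))) (fun j hj => hu j (Or.inr (Or.inr hj))),
      as_te, List.append_assoc]

end pure

/-! ### additivity -/

section add

variable {R : Type} [NonUnitalNonAssocRing R] (p : ℕ → ℕ)

theorem evS_congr (T : Tm) (u v : ℕ → R) (h : ∀ j ∈ T.lv, u j = v j) :
    T.evS p u = T.evS p v := by
  induction T with
  | v i => exact h i (by simp [lv_v])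
  | mul s t hs ht =>
    simp only [lv_mul, List.mem_append] at h
    rw [Tm.evS, Tm.evS, hs (fun j hj => h j (Or.inl hj)), ht (fun j hj => h j (Or.inr hj))]
  | br s t hs ht =>
    simp only [lv_br, List.mem_append] at h
    rw [Tm.evS, Tm.evS, hs (fun j hj => h j (Or.inl hj)), ht (fun j hj => h j (Or.inr hj))]
  | jo s t hs ht =>
    simp only [lv_jo, List.mem_append] at h
    rw [Tm.evS, Tm.evS, hs (fun j hj => h j (Or.inl hj)), ht (fun j hj => h j (Or.inr hj))]
  | as s t r hs ht hr =>
    simp only [lv_as, List.mem_append] at h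
    rw [Tm.evS, Tm.evS, hs (fun j hj => h j (Or.inl hj)),
      ht (fun j hj => h j (Or.inr (Or.inl hj))), hr (fun j hj => h j (Or.inr (Or.inr hj)))]

theorem evS_const (T : Tm) (u : ℕ → R) (j : ℕ) (h : T.lv.count j = 0) (x : R) :
    T.evS p (update u j x) = T.evS p u := by
  refine evS_congr p T _ _ fun i hi => update_of_ne ?_ _ _
  rintro rfl
  exact absurd (List.count_pos_iff.2 hi) (by omega)

theorem evS_add (T : Tm) (u : ℕ → R) (j : ℕ) (h : T.lv.count j = 1) :
    ∃ f : R →+ R, ∀ x, T.evS p (update u j x) = f x := by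
  induction T with
  | v i =>
    have : i = j := by
      by_contra hij
      simp [lv_v, hij] at h
    subst this
    exact ⟨AddMonoidHom.id R, fun x => by rw [Tm.evS, update_self]; rfl⟩
  | mul s t hs ht =>
    rw [lv_mul, List.count_append] at h
    rcases Nat.eq_zero_or_pos (s.lv.count j) with h1 | h1
    · obtain ⟨f, hf⟩ := ht (by omega)
      refine ⟨(AddMonoidHom.mulLeft (s.evS p u)).comp f, fun x => ?_⟩
      rw [Tm.evS, hf, evS_const p s u j h1]
      rfl
    · obtain ⟨f, hf⟩ := hs (by omega)
      refine ⟨(AddMonoidHom.mulRight (t.evS p u)).comp f, fun x => ?_⟩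
      rw [Tm.evS, hf, evS_const p t u j (by omega)]
      rfl
  | br s t hs ht =>
    rw [lv_br, List.count_append] at h
    rcases Nat.eq_zero_or_pos (s.lv.count j) with h1 | h1
    · obtain ⟨f, hf⟩ := ht (by omega)
      refine ⟨(AddMonoidHom.mulLeft (s.evS p u)).comp f -
        ((-1 : ℤ) ^ (s.dg p * t.dg p)) • (AddMonoidHom.mulRight (s.evS p u)).comp f, fun x => ?_⟩
      rw [Tm.evS, hf, evS_const p s u j h1]
      rfl
    · obtain ⟨f, hf⟩ := hs (by omega)
      refine ⟨(AddMonoidHom.mulRight (t.evS p u)).comp f -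
        ((-1 : ℤ) ^ (s.dg p * t.dg p)) • (AddMonoidHom.mulLeft (t.evS p u)).comp f, fun x => ?_⟩
      rw [Tm.evS, hf, evS_const p t u j (by omega)]
      rfl
  | jo s t hs ht =>
    rw [lv_jo, List.count_append] at h
    rcases Nat.eq_zero_or_pos (s.lv.count j) with h1 | h1
    · obtain ⟨f, hf⟩ := ht (by omega)
      refine ⟨(AddMonoidHom.mulLeft (s.evS p u)).comp f +
        ((-1 : ℤ) ^ (s.dg p * t.dg p)) • (AddMonoidHom.mulRight (s.evS p u)).comp f, fun x => ?_⟩
      rw [Tm.evS, hf, evS_const p s u j h1]
      rfl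
    · obtain ⟨f, hf⟩ := hs (by omega)
      refine ⟨(AddMonoidHom.mulRight (t.evS p u)).comp f +
        ((-1 : ℤ) ^ (s.dg p * t.dg p)) • (AddMonoidHom.mulLeft (t.evS p u)).comp f, fun x => ?_⟩
      rw [Tm.evS, hf, evS_const p t u j (by omega)]
      rfl
  | as s t r hs ht hr =>
    rw [lv_as, List.count_append, List.count_append] at h
    rcases Nat.eq_zero_or_pos (s.lv.count j) with h1 | h1
    · rcases Nat.eq_zero_or_pos (t.lv.count j) with h2 | h2
      · obtain ⟨f, hf⟩ := hr (by omega)
        refine ⟨(AddMonoidHom.mulLeft (s.evS p u * t.evS p u)).comp f -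
          (AddMonoidHom.mulLeft (s.evS p u)).comp ((AddMonoidHom.mulLeft (t.evS p u)).comp f),
          fun x => ?_⟩
        rw [Tm.evS, hf, evS_const p s u j h1, evS_const p t u j h2]
        rfl
      · obtain ⟨f, hf⟩ := ht (by omega)
        refine ⟨(AddMonoidHom.mulRight (r.evS p u)).comp
            ((AddMonoidHom.mulLeft (s.evS p u)).comp f) -
          (AddMonoidHom.mulLeft (s.evS p u)).comp ((AddMonoidHom.mulRight (r.evS p u)).comp f),
          fun x => ?_⟩
        rw [Tm.evS, hf, evS_const p s u j h1, evS_const p r u j (by omega)]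
        rfl
    · obtain ⟨f, hf⟩ := hs (by omega)
      refine ⟨(AddMonoidHom.mulRight (r.evS p u)).comp
          ((AddMonoidHom.mulRight (t.evS p u)).comp f) -
        (AddMonoidHom.mulRight (t.evS p u * r.evS p u)).comp f, fun x => ?_⟩
      rw [Tm.evS, hf, evS_const p t u j (by omega), evS_const p r u j (by omega)]
      rfl

theorem sum_add (L : FS) (u : ℕ → R) (j : ℕ) (h : ∀ q ∈ L, q.2.lv.count j = 1) :
    ∃ f : R →+ R, ∀ x,
      (L.map (fun q => (q.1 * eps p q.2.lv) • q.2.evS p (update u j x))).sum = f x := by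
  induction L with
  | nil => exact ⟨0, fun x => rfl⟩
  | cons q L ih =>
    obtain ⟨f, hf⟩ := ih fun r hr => h r (List.mem_cons_of_mem _ hr)
    obtain ⟨g, hg⟩ := evS_add p q.2 u j (h q (List.mem_cons_self))
    refine ⟨(q.1 * eps p q.2.lv) • g + f, fun x => ?_⟩
    rw [List.map_cons, List.sum_cons, hf, hg]
    rfl

end add

theorem c1 : S_C1 := by
  intro B _ n k L hL hI p u hu
  have hperm : ∀ q ∈ L, (List.range k).Perm q.2.lv := fun q hq => by
    rw [← hL q hq]; exact srt_perm _
  have hlt : ∀ q ∈ L, ∀ j ∈ q.2.lv, j < k := fun q hq j hj =>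
    List.mem_range.1 ((hperm q hq).mem_iff.2 hj)
  have hcount : ∀ q ∈ L, ∀ j, j < k → q.2.lv.count j = 1 := fun q hq j hj => by
    rw [← (hperm q hq).count_eq]
    exact List.count_eq_one_of_mem (List.nodup_range) (List.mem_range.2 hj)
  -- pure arguments
  have hpure : ∀ v : ℕ → TS B n, (∀ i, i < k → ∃ (a : B) (l : List (Fin n)),
      l.length % 2 = p i % 2 ∧ v i = te a l) →
      (L.map (fun q => (q.1 * eps p q.2.lv) • q.2.evS p v)).sum = 0 := by
    intro v hv
    have hv' : ∀ i, ∃ (a : B) (l : List (Fin n)), i < k → l.length % 2 = p i % 2 ∧ v i = te a l := by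
      intro i
      by_cases hi : i < k
      · obtain ⟨a, l, h1, h2⟩ := hv i hi
        exact ⟨a, l, fun _ => ⟨h1, h2⟩⟩
      · exact ⟨0, [], fun h => absurd h hi⟩
    choose a l hal using hv'
    have key : ∀ M : FS, (∀ q ∈ M, q ∈ L) →
        (M.map (fun q => (q.1 * eps p q.2.lv) • q.2.evS p v)).sum =
          te ((M.map (fun q => q.1 • q.2.ev0 a)).sum) ((List.range k).flatMap l) := by
      intro M
      induction M with
      | nil =>
        intro _
        simp only [List.map_nil, List.sum_nil]
        unfold te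
        rw [tm_zero]
      | cons q M ih =>
        intro hM
        have hq : q ∈ L := hM q (List.mem_cons_self)
        rw [List.map_cons, List.sum_cons, List.map_cons, List.sum_cons,
          ih fun r hr => hM r (List.mem_cons_of_mem _ hr), ← te_add]
        congr 1
        have h1 : ∀ j ∈ q.2.lv, (l j).length % 2 = p j % 2 := fun j hj =>
          (hal j (hlt q hq j hj)).1
        rw [evS_te p l a v q.2 h1 (fun j hj => (hal j (hlt q hq j hj)).2)]
        have h2 := te_srt p l (q.2.ev0 a) q.2.lv h1 []
        simp only [List.nil_append] at h2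
        rw [h2, hL q hq, smul_smul, mul_assoc, eps_sq, mul_one, te_zsmul]
    rw [key L (fun q hq => hq), hI a]
    unfold te
    rw [tm_zero]
  -- general arguments
  have hgen : ∀ j : ℕ, ∀ v : ℕ → TS B n, (∀ i, v i ∈ PP (A := B) (n := n) (p i % 2)) →
      (∀ i, j ≤ i → i < k → ∃ (a : B) (l : List (Fin n)), l.length % 2 = p i % 2 ∧
        v i = te a l) →
      (L.map (fun q => (q.1 * eps p q.2.lv) • q.2.evS p v)).sum = 0 := by
    intro j
    induction j with
    | zero =>
      intro v _ h2
      exact hpure v fun i hi => h2 i (Nat.zero_le _) hi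
    | succ j ih =>
      intro v h1 h2
      by_cases hj : j < k
      · obtain ⟨f, hf⟩ := sum_add p L v j fun q hq => hcount q hq j hj
        have h3 : PP (A := B) (n := n) (p j % 2) ≤ f.ker := by
          unfold PP
          rw [AddSubgroup.closure_le]
          rintro x ⟨a, l, hl, rfl⟩
          change f (te a l) = 0
          rw [← hf]
          refine ih (update v j (te a l)) (fun i => ?_) (fun i hi hik => ?_)
          · by_cases hij : i = j
            · subst hij
              rw [update_self, ← hl]
              exact te_mem a l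
            · rw [update_of_ne hij]
              exact h1 i
          · by_cases hij : i = j
            · subst hij
              rw [update_self]
              exact ⟨a, l, hl, rfl⟩
            · rw [update_of_ne hij]
              exact h2 i (by omega) hik
        have h4 : f (v j) = 0 := h3 (h1 j)
        have h5 := hf (v j)
        rw [update_eq_self, h4] at h5
        exact h5
      · exact ih v h1 fun i hi hik => absurd hik (by omega)
  exact hgen k u hu fun i hi hik => absurd hik (by omega)

end Pool.Agent.W377.TCI
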